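import Pool.Agent.Helper9.LS5.SheetC

/-!
# CFIN: final arithmetic for the concentration theorem (project LS5, MP_9a3c31_nt)
-/

set_option autoImplicit false

open Filter Topology NumberField

namespace Pool.Agent.Helper9.LS5

open Pool.Agent.Helper42.LS Pool.Agent.Helper42.LK Pool.Agent.Helper54.LM

lemma CFIN_prs_le {ι : Type} (V : Finset ι) (w : ι → ℝ) (r : ι → ι → Prop)
    (hw : ∀ v ∈ V, 0 ≤ w v) : prs V w r ≤ (∑ v ∈ V, w v) ^ 2 := by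
  classical
  unfold prs
  rw [sq, Finset.sum_mul_sum]
  refine Finset.sum_le_sum fun v hv => Finset.sum_le_sum fun v' hv' => ?_
  split_ifs
  · exact le_rfl
  · exact mul_nonneg (hw v hv) (hw v' hv')

/-- cube root -/
lemma CFIN_root (m : ℕ) {ρ : ℝ} (hρ : 0 ≤ ρ) : ∃ s : ℝ, 0 ≤ s ∧ s ^ 3 = ρ ∧
    ρ ^ (2 / 3 : ℝ) = s ^ 2 ∧ ρ ^ ((2 * (m : ℝ) + 6) / 3) = s ^ (2 * m + 6) := by
  refine ⟨ρ ^ (1 / 3 : ℝ), Real.rpow_nonneg hρ _, ?_, ?_, ?_⟩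
  · rw [← Real.rpow_natCast, ← Real.rpow_mul hρ]; norm_num
  · rw [← Real.rpow_natCast, ← Real.rpow_mul hρ]; norm_num
  · rw [← Real.rpow_natCast, ← Real.rpow_mul hρ]; congr 1; push_cast; ring

lemma CFIN_gam (m : ℕ) : -3 ≤ gam m := by
  unfold gam
  have h0 : (0 : ℝ) ≤ m := Nat.cast_nonneg m
  have h : (0 : ℝ) < 4 * m + 9 := by positivity
  rw [le_div_iff₀ h]
  nlinarith

/-- small case, real numbers -/
lemma CFIN_small {m : ℕ} {X s C₁ c₀ D : ℝ} (hX : 1 ≤ X) (hC₁ : 1 ≤ C₁)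
    (hc₀ : 0 < c₀) (h : X * s ^ 2 ≤ C₁) (hD : c₀ * X ^ gam m ≤ D) :
    c₀ / C₁ ^ (m + 3) * X ^ m * s ^ (2 * m + 6) ≤ D := by
  have hX0 : 0 < X := by linarith
  have hC0 : 0 < C₁ := by linarith
  have h1 : (X ^ 3)⁻¹ ≤ X ^ gam m := by
    have h4 : (X ^ 3)⁻¹ = X ^ (-3 : ℝ) := by
      rw [Real.rpow_neg hX0.le]
      congr 1
      rw [← Real.rpow_natCast]
      norm_num
    rw [h4]
    exact Real.rpow_le_rpow_of_exponent_le hX (CFIN_gam m)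
  have h2 : X ^ m * s ^ (2 * m + 6) = (X * s ^ 2) ^ (m + 3) * (X ^ 3)⁻¹ := by
    have h5 : (X * s ^ 2) ^ (m + 3) = (X ^ m * s ^ (2 * m + 6)) * X ^ 3 := by
      rw [mul_pow, ← pow_mul, pow_add X m 3, show 2 * (m + 3) = 2 * m + 6 by ring]
      ring
    rw [h5, mul_assoc, mul_inv_cancel₀ (by positivity), mul_one]
  have h3 : (X * s ^ 2) ^ (m + 3) ≤ C₁ ^ (m + 3) := pow_le_pow_left₀ (by positivity) h _
  have h6 : 0 < C₁ ^ (m + 3) := by positivity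
  have h7 : 0 ≤ (X ^ 3)⁻¹ := by positivity
  calc c₀ / C₁ ^ (m + 3) * X ^ m * s ^ (2 * m + 6)
      = c₀ / C₁ ^ (m + 3) * ((X * s ^ 2) ^ (m + 3) * (X ^ 3)⁻¹) := by rw [← h2]; ring
    _ ≤ c₀ / C₁ ^ (m + 3) * (C₁ ^ (m + 3) * (X ^ 3)⁻¹) :=
        mul_le_mul_of_nonneg_left (mul_le_mul_of_nonneg_right h3 h7) (by positivity)
    _ = c₀ * (X ^ 3)⁻¹ := by field_simp
    _ ≤ c₀ * X ^ gam m := mul_le_mul_of_nonneg_left h1 hc₀.le
    _ ≤ D := hD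

/-- large case, real numbers -/
lemma CFIN_large {m : ℕ} {X s κ CR cB c₃ n D : ℝ} (hX : 0 < X) (hs : 0 < s) (hκ : 0 < κ)
    (hCR : 0 < CR) (hcB : 0 < cB) (hc₃ : 0 < c₃) (hn : κ * s ^ 3 * n ≤ CR) (hD : 0 ≤ D)
    (hB : cB * (c₃ / 2000 * (s ^ 2 * X)) ^ ((m : ℝ) / 2) ≤ n * √D) :
    (cB * κ / CR) ^ 2 * (c₃ / 2000) ^ m * X ^ m * s ^ (2 * m + 6) ≤ D := by
  obtain ⟨T, hT⟩ : ∃ T, T = c₃ / 2000 * (s ^ 2 * X) := ⟨_, rfl⟩
  have hT0 : 0 < T := by rw [hT]; positivity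
  rw [← hT] at hB
  obtain ⟨u, hu⟩ : ∃ u, u = T ^ ((m : ℝ) / 2) := ⟨_, rfl⟩
  have hu0 : 0 < u := by rw [hu]; exact Real.rpow_pos_of_pos hT0 _
  have hu2 : u ^ 2 = T ^ m := by
    rw [hu, ← Real.rpow_natCast, ← Real.rpow_mul hT0.le, ← Real.rpow_natCast]
    congr 1; push_cast; ring
  rw [← hu] at hB
  have hsq : 0 ≤ √D := Real.sqrt_nonneg _
  have h1 : cB * u * (κ * s ^ 3) ≤ CR * √D := by
    calc cB * u * (κ * s ^ 3) ≤ (n * √D) * (κ * s ^ 3) :=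
          mul_le_mul_of_nonneg_right hB (by positivity)
      _ = (κ * s ^ 3 * n) * √D := by ring
      _ ≤ CR * √D := mul_le_mul_of_nonneg_right hn hsq
  have h2 : (cB * κ / CR) * u * s ^ 3 ≤ √D := by
    have h5 : (cB * κ / CR) * u * s ^ 3 = (cB * u * (κ * s ^ 3)) / CR := by
      rw [div_mul_eq_mul_div, div_mul_eq_mul_div]
      congr 1; ring
    rw [h5, div_le_iff₀ hCR]; linarith
  have h3 : ((cB * κ / CR) * u * s ^ 3) ^ 2 ≤ D := by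
    calc ((cB * κ / CR) * u * s ^ 3) ^ 2 ≤ (√D) ^ 2 := pow_le_pow_left₀ (by positivity) h2 2
      _ = D := Real.sq_sqrt hD
  have h4 : ((cB * κ / CR) * u * s ^ 3) ^ 2 =
      (cB * κ / CR) ^ 2 * (c₃ / 2000) ^ m * X ^ m * s ^ (2 * m + 6) := by
    have h5 : ((cB * κ / CR) * u * s ^ 3) ^ 2 = (cB * κ / CR) ^ 2 * u ^ 2 * s ^ 6 := by ring
    rw [h5, hu2, hT, mul_pow (c₃ / 2000), mul_pow (s ^ 2), ← pow_mul, pow_add]; ring
  rw [← h4]; exact h3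

/-- CFIN: final arithmetic -/
theorem CFIN (hM : ST_LSRM) (hBF : ST_LBF) : ST_CFIN := by
  intro m hm C₀ c₀ hC₀ hc₀
  obtain ⟨cR, CR, hcR, hCR, hR⟩ := hM
  obtain ⟨cB, hcB, hB⟩ := hBF m
  have hC₀0 : 0 < C₀ := by linarith
  obtain ⟨κ, hκ⟩ : ∃ κ : ℝ, κ = 1 / (2 * C₀ ^ 3) := ⟨_, rfl⟩
  have hκ0 : 0 < κ := by rw [hκ]; positivity
  obtain ⟨c₃, hc₃⟩ : ∃ c₃ : ℝ, c₃ = cR * κ ^ (2 / 3 : ℝ) / 4 := ⟨_, rfl⟩
  have hc₃0 : 0 < c₃ := by rw [hc₃]; positivity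
  obtain ⟨C₂, hC₂⟩ : ∃ C₂ : ℝ, C₂ = C₀ * (1 + C₀ ^ 2) := ⟨_, rfl⟩
  have hC₂1 : 1 ≤ C₂ := by
    rw [hC₂]
    nlinarith [sq_nonneg C₀, mul_nonneg hC₀0.le (sq_nonneg C₀)]
  obtain ⟨C₁, hC₁⟩ : ∃ C₁ : ℝ, C₁ = 4 * C₀ * C₂ + 2 * C₀ / c₃ := ⟨_, rfl⟩
  have hC₁a : 4 * C₀ * C₂ ≤ C₁ := by
    have h : 0 ≤ 2 * C₀ / c₃ := by positivity
    rw [hC₁]; linarith
  have hC₁b : 2 * C₀ / c₃ ≤ C₁ := by
    have h : 0 ≤ 4 * C₀ * C₂ := by positivity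
    rw [hC₁]; linarith
  have hC₁1 : 1 ≤ C₁ := by
    refine le_trans ?_ hC₁a
    nlinarith
  have hC₁0 : 0 < C₁ := by linarith
  refine ⟨min ((cB * κ / CR) ^ 2 * (c₃ / 2000) ^ m) (c₀ / C₁ ^ (m + 3)),
    lt_min (by positivity) (by positivity), ?_⟩
  intro G ι V w t H ρ hG hH hρ hw hL1 hL2 hρH hmain hdet
  obtain ⟨s, hs, hs3, hs2, hsm⟩ := CFIN_root m hρ
  rw [hsm]
  have hX : 1 ≤ 1 + H := by linarith
  have hX0 : 0 < 1 + H := by linarith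
  have hD : 0 ≤ G.det := hG.det_pos.le
  have hpos : 0 ≤ (1 + H) ^ m * s ^ (2 * m + 6) := by positivity
  rcases lt_or_ge ((1 + H) * s ^ 2) C₁ with hc | hc
  · -- small case
    refine le_trans ?_ (CFIN_small hX hC₁1 hc₀ hc.le hdet)
    rw [mul_assoc, mul_assoc]
    exact mul_le_mul_of_nonneg_right (min_le_right _ _) hpos
  · -- large case
    have hs0 : 0 < s := by
      rcases hs.lt_or_eq with h | h
      · exact h
      · exfalso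
        rw [← h] at hc
        norm_num at hc
        linarith
    have hρ0 : 0 < ρ := by rw [← hs3]; positivity
    obtain ⟨L, hLd⟩ : ∃ L, L = ∑ v ∈ V, w v := ⟨_, rfl⟩
    obtain ⟨P, hP⟩ : ∃ P, P = prs V w (fun v v' => ∀ i, ∃ n : ℤ, t v i = t v' i + n) := ⟨_, rfl⟩
    have hPL : P ≤ L ^ 2 := by rw [hP, hLd]; exact CFIN_prs_le V w _ hw
    rw [← hLd] at hL1 hL2
    rw [← hP] at hρH
    have hL0 : 0 ≤ L := by rw [hLd]; exact Finset.sum_nonneg hw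
    have hLX : L ≤ C₀ * (1 + H) := by
      have h : H ≤ C₀ * H := by nlinarith
      linarith
    have hL2' : L ^ 2 ≤ C₀ ^ 2 * (1 + H) ^ 2 := by
      calc L ^ 2 ≤ (C₀ * (1 + H)) ^ 2 := pow_le_pow_left₀ hL0 hLX 2
        _ = C₀ ^ 2 * (1 + H) ^ 2 := by ring
    have hρC : ρ ≤ C₂ := by
      have h1 : ρ * (1 + H) ^ 2 ≤ C₂ * (1 + H) ^ 2 := by
        calc ρ * (1 + H) ^ 2 ≤ C₀ * (1 + P) := hρH
          _ ≤ C₀ * ((1 + H) ^ 2 + C₀ ^ 2 * (1 + H) ^ 2) := by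
              have h2 : 1 ≤ (1 + H) ^ 2 := one_le_pow₀ hX
              exact mul_le_mul_of_nonneg_left (by linarith) hC₀0.le
          _ = C₂ * (1 + H) ^ 2 := by rw [hC₂]; ring
      exact le_of_mul_le_mul_right h1 (by positivity)
    have hs1C : s ≤ C₂ := by
      rcases le_or_gt s 1 with h | h
      · linarith
      · have h1 : s ≤ s ^ 3 := le_self_pow₀ h.le (by norm_num)
        linarith
    have hs2C : s ^ 2 ≤ C₂ := by
      rcases le_or_gt s 1 with h | h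
      · have h1 : s ^ 2 ≤ 1 := pow_le_one₀ hs h
        linarith
      · have h1 : s ^ 2 ≤ s ^ 3 := pow_le_pow_right₀ h.le (by norm_num)
        linarith
    have hX4 : 4 * C₀ ≤ 1 + H := by
      have h1 : 4 * C₀ * C₂ ≤ (1 + H) * C₂ := by
        calc 4 * C₀ * C₂ ≤ C₁ := hC₁a
          _ ≤ (1 + H) * s ^ 2 := hc
          _ ≤ (1 + H) * C₂ := mul_le_mul_of_nonneg_left hs2C hX0.le
      exact le_of_mul_le_mul_right h1 (by linarith)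
    have hLlow : (1 + H) / 4 ≤ L := by linarith
    have hρX : 2 * C₀ ≤ ρ * (1 + H) ^ 2 := by
      have h1 : C₂ * (2 * C₀) ≤ C₂ * (ρ * (1 + H) ^ 2) := by
        calc C₂ * (2 * C₀) ≤ C₁ * 1 := by
              have h2 : 0 ≤ C₀ * C₂ := by positivity
              linarith
          _ ≤ C₁ * C₁ := mul_le_mul_of_nonneg_left hC₁1 hC₁0.le
          _ ≤ ((1 + H) * s ^ 2) * ((1 + H) * s ^ 2) :=
              mul_le_mul hc hc hC₁0.le (by positivity)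
          _ = s * (ρ * (1 + H) ^ 2) := by rw [← hs3]; ring
          _ ≤ C₂ * (ρ * (1 + H) ^ 2) := mul_le_mul_of_nonneg_right hs1C (by positivity)
      exact le_of_mul_le_mul_left h1 (by linarith)
    have hκρ : κ * ρ * L ^ 2 ≤ P := by
      have h1 : ρ * (1 + H) ^ 2 ≤ 2 * C₀ * P := by linarith
      have h2 : ρ * L ^ 2 ≤ 2 * C₀ ^ 3 * P := by
        calc ρ * L ^ 2 ≤ ρ * (C₀ ^ 2 * (1 + H) ^ 2) := mul_le_mul_of_nonneg_left hL2' hρ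
          _ = C₀ ^ 2 * (ρ * (1 + H) ^ 2) := by ring
          _ ≤ C₀ ^ 2 * (2 * C₀ * P) := mul_le_mul_of_nonneg_left h1 (by positivity)
          _ = 2 * C₀ ^ 3 * P := by ring
      rw [hκ, mul_assoc, div_mul_eq_mul_div, one_mul, div_le_iff₀ (by positivity)]
      linarith
    obtain ⟨S, hS1, hS2⟩ := hB G hG (c₃ / 2000 * (s ^ 2 * (1 + H))) (by positivity)
    have hn : κ * s ^ 3 * (S.card : ℝ) ≤ CR := by
      by_contra hcon
      push Not at hcon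
      obtain ⟨a₁, ha₁, a₂, ha₂, b₁, hb₁, b₂, hb₂, hne, hF⟩ := hR m S ι V w t (κ * ρ) hw
        (by rw [← hLd]; linarith) (by positivity) (by rw [← hLd, ← hP]; exact hκρ)
        (by rw [← hs3]; exact hcon.le)
      have h1 := hmain _ hne
      rw [← hLd] at hF
      have h2 : qf G (a₁ + a₂ - b₁ - b₂) ≤ 2 * qf G (a₁ - b₁) + 2 * qf G (a₂ - b₂) := by
        have h3 : a₁ + a₂ - b₁ - b₂ = (a₁ - b₁) + (a₂ - b₂) := by abel
        rw [h3]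
        exact LFIN_qf_add hG.posSemidef _ _
      have h3 := hS2 a₁ ha₁ b₁ hb₁
      have h4 := hS2 a₂ ha₂ b₂ hb₂
      have h5 : c₃ * (s ^ 2 * (1 + H)) ≤ cR * ((κ * ρ) ^ (2 / 3 : ℝ) * L) := by
        rw [Real.mul_rpow hκ0.le hρ, hs2, hc₃]
        calc cR * κ ^ (2 / 3 : ℝ) / 4 * (s ^ 2 * (1 + H))
            = cR * (κ ^ (2 / 3 : ℝ) * s ^ 2 * ((1 + H) / 4)) := by ring
          _ ≤ cR * (κ ^ (2 / 3 : ℝ) * s ^ 2 * L) := by gcongr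
      have h6 : 2 * C₀ ≤ c₃ * (s ^ 2 * (1 + H)) := by
        have h7 : 2 * C₀ / c₃ ≤ (1 + H) * s ^ 2 := le_trans hC₁b hc
        rw [div_le_iff₀ hc₃0] at h7
        linarith
      have h7 : 0 < c₃ * (s ^ 2 * (1 + H)) := by positivity
      have h8 : c₃ / 2000 * (s ^ 2 * (1 + H)) = c₃ * (s ^ 2 * (1 + H)) / 2000 := by ring
      rw [h8] at h3 h4
      linarith
    refine le_trans ?_ (CFIN_large hX0 hs0 hκ0 hCR hcB hc₃0 hn hD hS1)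
    rw [mul_assoc, mul_assoc _ ((1 + H) ^ m)]
    exact mul_le_mul_of_nonneg_right (min_le_left _ _) hpos

end Pool.Agent.Helper9.LS5
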